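import Pool.Agent.X189.WE.Core

set_option autoImplicit false

namespace Pool.Agent.X189.WE

open Set Filter Topology Real

variable {b : ℕ} {α : ℝ}

/-- The corrected function `h - λ h(b ·)`, whose Weierstrass function is `h`. -/
noncomputable def corr (b : ℕ) (α : ℝ) (h : ℝ → ℝ) (x : ℝ) : ℝ :=
  h x - (b : ℝ) ^ (-α) * h (b * x)

theorem W_corr (hb : 2 ≤ b) (h0 : 0 < α) {h : ℝ → ℝ} {M : ℝ} (hM : ∀ x, |h x| ≤ M) (x : ℝ) :
    W b α (corr b α h) x = h x := by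
  rw [W_eq hb]
  have hs := summable_W hb h0 hM x
  have hs' : Summable fun k : ℕ => ((b : ℝ) ^ (-α)) ^ (k + 1) * h ((b : ℝ) ^ (k + 1) * x) :=
    (summable_nat_add_iff 1).2 hs
  have e : ∀ k : ℕ, ((b : ℝ) ^ (-α)) ^ k * corr b α h ((b : ℝ) ^ k * x) =
      ((b : ℝ) ^ (-α)) ^ k * h ((b : ℝ) ^ k * x) -
        ((b : ℝ) ^ (-α)) ^ (k + 1) * h ((b : ℝ) ^ (k + 1) * x) := by
    intro k
    unfold corr
    rw [pow_succ (b : ℝ) k, mul_comm ((b : ℝ) ^ k) (b : ℝ), mul_assoc (b : ℝ)]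
    ring
  rw [tsum_congr e, hs.tsum_sub hs', hs.tsum_eq_zero_add]
  simp

theorem corr_periodic {h : ℝ → ℝ} (hh : Function.Periodic h 1) :
    Function.Periodic (corr b α h) 1 := by
  intro x
  unfold corr
  have e : (b : ℝ) * (x + 1) = b * x + (b : ℤ) * 1 := by push_cast; ring
  rw [hh x, e, hh.int_mul]

theorem corr_lip {h : ℝ → ℝ} {L : ℝ} (hL : ∀ x y, |h x - h y| ≤ L * |x - y|) (x y : ℝ) :
    |corr b α h x - corr b α h y| ≤ (L + (b : ℝ) ^ (-α) * (L * b)) * |x - y| := by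
  unfold corr
  have h1 := hL x y
  have h2 := hL (b * x) (b * y)
  have e : (b : ℝ) * x - b * y = b * (x - y) := by ring
  rw [e, abs_mul, abs_of_nonneg (by positivity : (0 : ℝ) ≤ b)] at h2
  have hl : 0 ≤ (b : ℝ) ^ (-α) := by positivity
  calc |h x - (b : ℝ) ^ (-α) * h (b * x) - (h y - (b : ℝ) ^ (-α) * h (b * y))|
      = |(h x - h y) - (b : ℝ) ^ (-α) * (h (b * x) - h (b * y))| := by congr 1; ring
    _ ≤ |h x - h y| + |(b : ℝ) ^ (-α) * (h (b * x) - h (b * y))| := abs_sub _ _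
    _ = |h x - h y| + (b : ℝ) ^ (-α) * |h (b * x) - h (b * y)| := by
        rw [abs_mul, abs_of_nonneg hl]
    _ ≤ L * |x - y| + (b : ℝ) ^ (-α) * (L * (b * |x - y|)) := by gcongr
    _ = _ := by ring

/-- Scale selection. -/
theorem scale (hb : 2 ≤ b) (h0 : 0 < α) (h1 : α < 1) {s : ℝ} (hs : 0 < s) (hs' : s ≤ 1 / 2) :
    ∃ n : ℕ, (b : ℝ) ^ n * s ≤ 1 / 2 ∧ 1 / 2 < (b : ℝ) ^ (n + 1) * s ∧
      s ^ α ≤ ((b : ℝ) ^ (-α)) ^ n ∧ ((b : ℝ) ^ (-α)) ^ (n + 1) ≤ 2 * s ^ α := by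
  have hb0 : (0 : ℝ) < b := by positivity
  have hb1 : (1 : ℝ) < b := by exact_mod_cast (by omega : 1 < b)
  obtain ⟨n, hn1, hn2⟩ := exists_nat_pow_near (x := 1 / (2 * s)) (y := (b : ℝ))
    (by rw [le_div_iff₀ (by positivity)]; linarith) hb1
  have a1 : (b : ℝ) ^ n * s ≤ 1 / 2 := by
    rw [le_div_iff₀ (by positivity)] at hn1; linarith
  have a2 : 1 / 2 < (b : ℝ) ^ (n + 1) * s := by
    rw [div_lt_iff₀ (by positivity)] at hn2; linarith
  have hpow : ∀ k : ℕ, ((b : ℝ) ^ (-α)) ^ k = (((b : ℝ) ^ k)⁻¹) ^ α := by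
    intro k
    rw [← Real.rpow_natCast, ← Real.rpow_mul hb0.le, Real.inv_rpow (by positivity),
      ← Real.rpow_neg (by positivity), ← Real.rpow_natCast, ← Real.rpow_mul hb0.le]
    congr 1; ring
  refine ⟨n, a1, a2, ?_, ?_⟩
  · rw [hpow]
    apply Real.rpow_le_rpow hs.le _ h0.le
    rw [← one_div, le_div_iff₀ (by positivity)]
    linarith
  · rw [hpow]
    have h3 : (((b : ℝ) ^ (n + 1))⁻¹) ^ α ≤ (2 * s) ^ α := by
      apply Real.rpow_le_rpow (by positivity) _ h0.le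
      rw [← one_div, div_le_iff₀ (by positivity)]
      linarith
    refine h3.trans ?_
    rw [Real.mul_rpow (by norm_num) hs.le]
    have h4 : (2 : ℝ) ^ α ≤ 2 := by
      calc (2 : ℝ) ^ α ≤ (2 : ℝ) ^ (1 : ℝ) :=
            Real.rpow_le_rpow_of_exponent_le (by norm_num) h1.le
        _ = 2 := Real.rpow_one 2
    gcongr

theorem reduce (hb : 2 ≤ b) (x y : ℝ) : 0 ≤ dT x y ∧ dT x y ≤ 1 / 2 ∧
    ∃ z, ∀ g : ℝ → ℝ, Function.Periodic g 1 →
      |W b α g x - W b α g y| = |W b α g (z + dT x y) - W b α g z| := by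
  rw [dT_eq]
  refine ⟨abs_nonneg _, abs_sub_round _, ?_⟩
  set s := x - y - round (x - y) with hs
  have hx : x = (y + s) + ((round (x - y) : ℤ) : ℝ) := by rw [hs]; ring
  rcases le_total 0 s with h | h
  · refine ⟨y, fun g hg => ?_⟩
    rw [abs_of_nonneg h]
    conv_lhs => rw [hx, W_add_int hb hg]
  · refine ⟨y + s, fun g hg => ?_⟩
    rw [abs_of_nonpos h, add_neg_cancel_right, abs_sub_comm (W b α g y)]
    conv_lhs => rw [hx, W_add_int hb hg]

/-- The family. -/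
noncomputable def fam (b : ℕ) (α : ℝ) (M : ℕ) : Fin M ⊕ Fin 2 → ℝ → ℝ
  | Sum.inl i => cell M i
  | Sum.inr 0 => corr b α fun x => Real.cos (2 * π * x)
  | Sum.inr 1 => corr b α fun x => Real.sin (2 * π * x)

theorem cos_periodic : Function.Periodic (fun x : ℝ => Real.cos (2 * π * x)) 1 := by
  intro x
  show Real.cos (2 * π * (x + 1)) = Real.cos (2 * π * x)
  rw [mul_add, mul_one, Real.cos_add_two_pi]

theorem sin_periodic : Function.Periodic (fun x : ℝ => Real.sin (2 * π * x)) 1 := by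
  intro x
  show Real.sin (2 * π * (x + 1)) = Real.sin (2 * π * x)
  rw [mul_add, mul_one, Real.sin_add_two_pi]

theorem cos_lip (x y : ℝ) : |Real.cos (2 * π * x) - Real.cos (2 * π * y)| ≤ 2 * π * |x - y| := by
  refine (abs_cos_sub_cos_le _ _).trans ?_
  rw [← mul_sub, abs_mul, abs_of_nonneg (by positivity)]

theorem sin_lip (x y : ℝ) : |Real.sin (2 * π * x) - Real.sin (2 * π * y)| ≤ 2 * π * |x - y| := by
  refine (abs_sin_sub_sin_le _ _).trans ?_
  rw [← mul_sub, abs_mul, abs_of_nonneg (by positivity)]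

theorem fam_periodic (M : ℕ) (i : Fin M ⊕ Fin 2) : Function.Periodic (fam b α M i) 1 := by
  rcases i with i | i
  · exact cell_periodic M i
  · fin_cases i
    · exact corr_periodic cos_periodic
    · exact corr_periodic sin_periodic

theorem fam_lip {M : ℕ} (i : Fin M ⊕ Fin 2) :
    ∃ L : ℝ, 0 ≤ L ∧ ∀ x y, |fam b α M i x - fam b α M i y| ≤ L * |x - y| := by
  rcases i with i | i
  · have hM : 1 ≤ M := by have := i.2; omega
    exact ⟨1, zero_le_one, cell_lip hM i⟩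
  · fin_cases i
    · exact ⟨_, by positivity, corr_lip cos_lip⟩
    · exact ⟨_, by positivity, corr_lip sin_lip⟩

theorem trig_lower {z s : ℝ} (hs : 0 ≤ s) (hs' : s ≤ 1 / 2) :
    2 * s ≤ |Real.cos (2 * π * (z + s)) - Real.cos (2 * π * z)| ∨
      2 * s ≤ |Real.sin (2 * π * (z + s)) - Real.sin (2 * π * z)| := by
  by_contra hcon
  push Not at hcon
  obtain ⟨hc, hsn⟩ := hcon
  set A := 2 * π * z with hA
  have e : 2 * π * (z + s) = A + 2 * (π * s) := by rw [hA]; ring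
  rw [e] at hc hsn
  have h1 : (Real.cos (A + 2 * (π * s)) - Real.cos A) ^ 2 +
      (Real.sin (A + 2 * (π * s)) - Real.sin A) ^ 2 = 4 * Real.sin (π * s) ^ 2 := by
    have h2 : Real.cos (A + 2 * (π * s)) * Real.cos A + Real.sin (A + 2 * (π * s)) * Real.sin A =
        Real.cos (2 * (π * s)) := by
      rw [← Real.cos_sub]; congr 1; ring
    have h3 := Real.sin_sq_add_cos_sq (A + 2 * (π * s))
    have h4 := Real.sin_sq_add_cos_sq A
    have h5 := Real.cos_two_mul (π * s)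
    have h6 := Real.sin_sq_add_cos_sq (π * s)
    nlinarith
  have h2 : 2 * s ≤ Real.sin (π * s) := by
    have h3 := Real.mul_le_sin (x := π * s) (by positivity) (by nlinarith [Real.pi_pos])
    have h4 : 2 / π * (π * s) = 2 * s := by field_simp
    rwa [h4] at h3
  have h3 : (Real.cos (A + 2 * (π * s)) - Real.cos A) ^ 2 < (2 * s) ^ 2 := by
    rw [← sq_abs]; gcongr
  have h4 : (Real.sin (A + 2 * (π * s)) - Real.sin A) ^ 2 < (2 * s) ^ 2 := by
    rw [← sq_abs]; gcongr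
  have h5 : (2 * s) ^ 2 ≤ Real.sin (π * s) ^ 2 := by gcongr
  nlinarith

/-- Main theorem, coordinatewise. -/
theorem main (hb : 2 ≤ b) (h0 : 0 < α) (h1 : α < 1) :
    ∃ (M : ℕ) (c K : ℝ), 0 < c ∧ 0 ≤ K ∧
      (∀ x y, ∃ i, c * dT x y ^ α ≤ |W b α (fam b α M i) x - W b α (fam b α M i) y|) ∧
      (∀ x y, ∀ i, |W b α (fam b α M i) x - W b α (fam b α M i) y| ≤ K * dT x y ^ α) := by
  have hb0 : (0 : ℝ) < b := by positivity
  have hb1 : (1 : ℝ) < b := by exact_mod_cast (by omega : 1 < b)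
  have hl := lam_pos (α := α) hb
  have hl1 := lam_lt_one hb h0
  have hC0 := C0_nonneg hb h0 h1
  obtain ⟨J, hJ⟩ : ∃ J : ℕ, C0 b α + 1 ≤ (((b : ℝ) ^ (-α))⁻¹) ^ J := by
    obtain ⟨J, hJ⟩ := pow_unbounded_of_one_lt (C0 b α + 1) ((one_lt_inv₀ hl).2 hl1)
    exact ⟨J, hJ.le⟩
  set M : ℕ := 4 * b ^ (J + 1) with hM
  have hM2 : 2 ≤ M := by
    have : 1 ≤ b ^ (J + 1) := Nat.one_le_pow _ _ (by omega)
    omega
  have hM0 : (0 : ℝ) < M := by positivity
  choose L hL0 hL using fun i => fam_lip (b := b) (α := α) (M := M) i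
  have hbd : ∀ i x, |fam b α M i x| ≤ |fam b α M i 0| + |L i| := fun i x =>
    periodic_bound (fam_periodic M i) (hL i) x
  set Ki : Fin M ⊕ Fin 2 → ℝ := fun i =>
    max (L i) (2 * (|fam b α M i 0| + |L i|)) * (2 * ((b : ℝ) ^ (-α))⁻¹ * C0 b α) with hKi
  have hKi0 : ∀ i, 0 ≤ Ki i := fun i =>
    mul_nonneg (le_trans (hL0 i) (le_max_left _ _)) (by positivity)
  refine ⟨M, min (1 / (M : ℝ)) (((b : ℝ) ^ J)⁻¹), ∑ i, Ki i, by positivity,
    Finset.sum_nonneg fun i _ => hKi0 i, ?_, ?_⟩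
  · intro x y
    obtain ⟨hd0, hd1, z, hz⟩ := reduce (α := α) hb x y
    set s := dT x y with hs
    rcases hd0.eq_or_lt with h | hpos
    · refine ⟨Sum.inr 0, ?_⟩
      rw [← h, Real.zero_rpow h0.ne', mul_zero]
      exact abs_nonneg _
    obtain ⟨n, hn1, hn2, hn3, hn4⟩ := scale hb h0 h1 hpos hd1
    have hsα : s ^ α ≤ 1 := Real.rpow_le_one hpos.le (by linarith) h0.le
    have hsα0 : 0 ≤ s ^ α := by positivity
    by_cases hnJ : J ≤ n
    · -- cell functions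
      have hlen : 2 / (M : ℝ) ≤ (b : ℝ) ^ (n - J) * s := by
        have e1 : (b : ℝ) ^ (n + 1) = b ^ (J + 1) * b ^ (n - J) := by
          rw [← pow_add]; congr 1; omega
        rw [e1] at hn2
        rw [hM]; push_cast
        rw [div_le_iff₀ (by positivity)]
        nlinarith
      obtain ⟨i, hi⟩ := cell_P3 hM2 (u := (b : ℝ) ^ (n - J) * z)
        (v := (b : ℝ) ^ (n - J) * z + (b : ℝ) ^ (n - J) * s) (by rwa [add_sub_cancel_left])
      rw [add_sub_cancel_left] at hi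
      refine ⟨Sum.inl i, ?_⟩
      rw [hz _ (fam_periodic M _)]
      refine le_trans ?_ (le_abs_self _)
      have hlow := lower (g := cell M i) hb h0 h1 (M := |fam b α M (Sum.inl i) 0| + |L (Sum.inl i)|)
        (ℓ := 1 / (M : ℝ)) (by positivity) (hbd (Sum.inl i)) (cell_P1 (by omega) i)
        (cell_P2 (by omega) i) hnJ hpos.le hn1 z hi
      refine le_trans ?_ hlow
      have e2 : ((b : ℝ) ^ (-α)) ^ (n - J) = ((b : ℝ) ^ (-α)) ^ n * (((b : ℝ) ^ (-α))⁻¹) ^ J := by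
        have : ((b : ℝ) ^ (-α)) ^ n = ((b : ℝ) ^ (-α)) ^ (n - J) * ((b : ℝ) ^ (-α)) ^ J := by
          rw [← pow_add]; congr 1; omega
        rw [this, mul_assoc, ← mul_pow, mul_inv_cancel₀ hl.ne', one_pow, mul_one]
      rw [e2, ← mul_sub]
      have h3 : min (1 / (M : ℝ)) (((b : ℝ) ^ J)⁻¹) * s ^ α ≤ 1 / (M : ℝ) * s ^ α :=
        mul_le_mul_of_nonneg_right (min_le_left _ _) hsα0
      refine h3.trans ?_
      refine mul_le_mul_of_nonneg_left ?_ (by positivity)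
      have h4 : 1 ≤ (((b : ℝ) ^ (-α))⁻¹) ^ J - C0 b α := by linarith
      calc s ^ α ≤ ((b : ℝ) ^ (-α)) ^ n := hn3
        _ = ((b : ℝ) ^ (-α)) ^ n * 1 := (mul_one _).symm
        _ ≤ _ := mul_le_mul_of_nonneg_left h4 (by positivity)
    · -- trigonometric functions
      push Not at hnJ
      have hs2 : ((b : ℝ) ^ J)⁻¹ ≤ 2 * s := by
        rw [← one_div, div_le_iff₀ (by positivity)]
        have : (b : ℝ) ^ (n + 1) ≤ b ^ J := pow_le_pow_right₀ hb1.le hnJ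
        nlinarith
      have h3 : min (1 / (M : ℝ)) (((b : ℝ) ^ J)⁻¹) * s ^ α ≤ 2 * s := by
        calc min (1 / (M : ℝ)) (((b : ℝ) ^ J)⁻¹) * s ^ α ≤ ((b : ℝ) ^ J)⁻¹ * 1 :=
              mul_le_mul (min_le_right _ _) hsα hsα0 (by positivity)
          _ ≤ 2 * s := by rw [mul_one]; exact hs2
      rcases trig_lower (z := z) hpos.le hd1 with h | h
      · refine ⟨Sum.inr 0, h3.trans ?_⟩
        rw [hz _ (fam_periodic M _)]
        show 2 * s ≤ |W b α (corr b α fun x => Real.cos (2 * π * x)) (z + s) -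
          W b α (corr b α fun x => Real.cos (2 * π * x)) z|
        rw [W_corr hb h0 (M := 1) (fun x => Real.abs_cos_le_one _),
          W_corr hb h0 (M := 1) (fun x => Real.abs_cos_le_one _)]
        exact h
      · refine ⟨Sum.inr 1, h3.trans ?_⟩
        rw [hz _ (fam_periodic M _)]
        show 2 * s ≤ |W b α (corr b α fun x => Real.sin (2 * π * x)) (z + s) -
          W b α (corr b α fun x => Real.sin (2 * π * x)) z|
        rw [W_corr hb h0 (M := 1) (fun x => Real.abs_sin_le_one _),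
          W_corr hb h0 (M := 1) (fun x => Real.abs_sin_le_one _)]
        exact h
  · intro x y i
    obtain ⟨hd0, hd1, z, hz⟩ := reduce (α := α) hb x y
    set s := dT x y with hs
    rw [hz _ (fam_periodic M i)]
    rcases hd0.eq_or_lt with h | hpos
    · rw [← h, add_zero, sub_self, abs_zero, Real.zero_rpow h0.ne', mul_zero]
    obtain ⟨n, hn1, hn2, hn3, hn4⟩ := scale hb h0 h1 hpos hd1
    have hup := upper hb h0 h1 (hbd i) (hL i) hpos.le hn1 z
    refine hup.trans ?_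
    have hsα0 : 0 ≤ s ^ α := by positivity
    have h5 : ((b : ℝ) ^ (-α)) ^ n ≤ 2 * ((b : ℝ) ^ (-α))⁻¹ * s ^ α := by
      rw [pow_succ] at hn4
      have : ((b : ℝ) ^ (-α)) ^ n = ((b : ℝ) ^ (-α)) ^ n * (b : ℝ) ^ (-α) * ((b : ℝ) ^ (-α))⁻¹ := by
        rw [mul_assoc, mul_inv_cancel₀ hl.ne', mul_one]
      rw [this]
      calc ((b : ℝ) ^ (-α)) ^ n * (b : ℝ) ^ (-α) * ((b : ℝ) ^ (-α))⁻¹ ≤
            2 * s ^ α * ((b : ℝ) ^ (-α))⁻¹ := by gcongr
        _ = _ := by ring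
    have h6 : max (L i) (2 * (|fam b α M i 0| + |L i|)) * (((b : ℝ) ^ (-α)) ^ n * C0 b α) ≤
        Ki i * s ^ α := by
      rw [hKi]
      have h7 : 0 ≤ max (L i) (2 * (|fam b α M i 0| + |L i|)) :=
        le_trans (hL0 i) (le_max_left _ _)
      calc max (L i) (2 * (|fam b α M i 0| + |L i|)) * (((b : ℝ) ^ (-α)) ^ n * C0 b α) ≤
          max (L i) (2 * (|fam b α M i 0| + |L i|)) *
            ((2 * ((b : ℝ) ^ (-α))⁻¹ * s ^ α) * C0 b α) := by gcongr
        _ = _ := by ring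
    refine h6.trans ?_
    refine mul_le_mul_of_nonneg_right ?_ hsα0
    exact Finset.single_le_sum (fun j _ => hKi0 j) (Finset.mem_univ i)

end Pool.Agent.X189.WE
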