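import Mathlib

set_option autoImplicit false

namespace Pool.Agent.X189.WE

open Set Filter Topology

/-- The distance of `x` and `y` on the circle `ℝ/ℤ`: `min_n |x - y - n|`. -/
noncomputable def dT (x y : ℝ) : ℝ := ⨅ n : ℤ, |x - y - n|

/-- The Weierstrass type function `W_g(x) = ∑ b^{-αk} g(b^k x)`. -/
noncomputable def W (b : ℕ) (α : ℝ) (g : ℝ → ℝ) (x : ℝ) : ℝ :=
  ∑' k : ℕ, (b : ℝ) ^ (-(α * k)) * g ((b : ℝ) ^ k * x)

theorem dT_eq (x y : ℝ) : dT x y = |x - y - round (x - y)| := by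
  refine le_antisymm (ciInf_le ⟨0, ?_⟩ (round (x - y))) (le_ciInf fun n => round_le _ _)
  rintro _ ⟨n, rfl⟩
  exact abs_nonneg _

theorem pow_neg_eq {b : ℕ} (hb : 2 ≤ b) (α : ℝ) (k : ℕ) :
    (b : ℝ) ^ (-(α * k)) = ((b : ℝ) ^ (-α)) ^ k := by
  rw [← Real.rpow_natCast, ← Real.rpow_mul (by positivity)]
  congr 1; ring

section

variable {b : ℕ} {α : ℝ} {g : ℝ → ℝ}

theorem lam_pos (hb : 2 ≤ b) : 0 < (b : ℝ) ^ (-α) := by
  have : (0 : ℝ) < b := by positivity
  positivity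

theorem lam_lt_one (hb : 2 ≤ b) (h0 : 0 < α) : (b : ℝ) ^ (-α) < 1 := by
  apply Real.rpow_lt_one_of_one_lt_of_neg
  · exact_mod_cast (by omega : 1 < b)
  · linarith

theorem one_lt_blam (hb : 2 ≤ b) (h1 : α < 1) : 1 < (b : ℝ) ^ (-α) * b := by
  have hb0 : (0 : ℝ) < b := by positivity
  have h : (b : ℝ) ^ (-α) * b = (b : ℝ) ^ (1 - α) := by
    rw [sub_eq_neg_add, Real.rpow_add hb0, Real.rpow_one]
  rw [h]
  apply Real.one_lt_rpow
  · exact_mod_cast (by omega : 1 < b)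
  · linarith

theorem summable_W (hb : 2 ≤ b) (h0 : 0 < α) {M : ℝ} (hM : ∀ x, |g x| ≤ M) (x : ℝ) :
    Summable fun k : ℕ => ((b : ℝ) ^ (-α)) ^ k * g ((b : ℝ) ^ k * x) := by
  have hl := lam_pos (α := α) hb
  have hl1 := lam_lt_one hb h0
  refine Summable.of_norm_bounded (g := fun k => ((b : ℝ) ^ (-α)) ^ k * M)
    ((summable_geometric_of_lt_one hl.le hl1).mul_right M) fun k => ?_
  rw [norm_mul, Real.norm_of_nonneg (by positivity), Real.norm_eq_abs]
  exact mul_le_mul_of_nonneg_left (hM _) (by positivity)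

theorem W_eq (hb : 2 ≤ b) (x : ℝ) :
    W b α g x = ∑' k : ℕ, ((b : ℝ) ^ (-α)) ^ k * g ((b : ℝ) ^ k * x) := by
  unfold W
  exact tsum_congr fun k => by rw [pow_neg_eq hb]

theorem W_add_int (hb : 2 ≤ b) (hg : Function.Periodic g 1) (x : ℝ) (n : ℤ) :
    W b α g (x + n) = W b α g x := by
  unfold W
  refine tsum_congr fun k => ?_
  have h1 : (b : ℝ) ^ k * (x + n) = (b : ℝ) ^ k * x + (((b : ℤ) ^ k * n : ℤ) : ℝ) * 1 := by
    push_cast; ring
  rw [h1, hg.int_mul]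

theorem W_sub (hb : 2 ≤ b) (h0 : 0 < α) {M : ℝ} (hM : ∀ x, |g x| ≤ M) (y s : ℝ) :
    W b α g (y + s) - W b α g y = ∑' k : ℕ, ((b : ℝ) ^ (-α)) ^ k *
      (g ((b : ℝ) ^ k * y + (b : ℝ) ^ k * s) - g ((b : ℝ) ^ k * y)) := by
  rw [W_eq hb, W_eq hb, ← (summable_W hb h0 hM _).tsum_sub (summable_W hb h0 hM _)]
  refine tsum_congr fun k => ?_
  rw [mul_add]; ring

/-- The comparison sequence. -/
noncomputable def ee (b : ℕ) (α : ℝ) (n : ℕ) (s : ℝ) (k : ℕ) : ℝ :=
  ((b : ℝ) ^ (-α)) ^ k * (if k ≤ n then (b : ℝ) ^ k * s else 1)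

/-- The constant `C₀`. -/
noncomputable def C0 (b : ℕ) (α : ℝ) : ℝ :=
  (b : ℝ) ^ (-α) * b / (2 * ((b : ℝ) ^ (-α) * b - 1)) + (b : ℝ) ^ (-α) / (1 - (b : ℝ) ^ (-α))

theorem C0_nonneg (hb : 2 ≤ b) (h0 : 0 < α) (h1 : α < 1) : 0 ≤ C0 b α := by
  have hl := lam_pos (α := α) hb
  have hl1 := lam_lt_one hb h0
  have hbl := one_lt_blam hb h1
  have : 0 < 1 - (b : ℝ) ^ (-α) := by linarith
  have : 0 < (b : ℝ) ^ (-α) * b - 1 := by linarith
  unfold C0; positivity

theorem ee_nonneg {n : ℕ} {s : ℝ} (hb : 2 ≤ b) (hs : 0 ≤ s) (k : ℕ) : 0 ≤ ee b α n s k := by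
  have hl := lam_pos (α := α) hb
  unfold ee; split_ifs <;> positivity

theorem ee_le (hb : 2 ≤ b) {n : ℕ} {s : ℝ} (hs : 0 ≤ s) (hn : (b : ℝ) ^ n * s ≤ 1 / 2) (k : ℕ) :
    ee b α n s k ≤ ((b : ℝ) ^ (-α)) ^ k := by
  have hl := lam_pos (α := α) hb
  have hb1 : (1 : ℝ) ≤ b := by exact_mod_cast (by omega : 1 ≤ b)
  unfold ee
  refine mul_le_of_le_one_right (by positivity) ?_
  split_ifs with h
  · have : (b : ℝ) ^ k ≤ (b : ℝ) ^ n := pow_le_pow_right₀ hb1 h
    nlinarith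
  · exact le_rfl

theorem summable_ee (hb : 2 ≤ b) (h0 : 0 < α) {n : ℕ} {s : ℝ} (hs : 0 ≤ s)
    (hn : (b : ℝ) ^ n * s ≤ 1 / 2) : Summable (ee b α n s) :=
  Summable.of_nonneg_of_le (ee_nonneg hb hs) (ee_le hb hs hn)
    (summable_geometric_of_lt_one (lam_pos hb).le (lam_lt_one hb h0))

theorem tsum_ee_le (hb : 2 ≤ b) (h0 : 0 < α) (h1 : α < 1) {n : ℕ} {s : ℝ} (hs : 0 ≤ s)
    (hn : (b : ℝ) ^ n * s ≤ 1 / 2) :
    ∑' k, ee b α n s k ≤ ((b : ℝ) ^ (-α)) ^ n * C0 b α := by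
  have hl := lam_pos (α := α) hb
  have hl1 := lam_lt_one hb h0
  have hbl := one_lt_blam hb h1
  set l := (b : ℝ) ^ (-α) with hldef
  have hq : 0 < l * b - 1 := by linarith
  have hq' : 0 < 1 - l := by linarith
  rw [← (summable_ee hb h0 hs hn).sum_add_tsum_nat_add (n + 1)]
  have hA : ∑ k ∈ Finset.range (n + 1), ee b α n s k ≤ l ^ n * (l * b / (2 * (l * b - 1))) := by
    have e1 : ∑ k ∈ Finset.range (n + 1), ee b α n s k =
        (∑ k ∈ Finset.range (n + 1), (l * b) ^ k) * s := by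
      rw [Finset.sum_mul]
      refine Finset.sum_congr rfl fun k hk => ?_
      rw [Finset.mem_range] at hk
      unfold ee
      rw [if_pos (by omega), mul_pow]; ring
    rw [e1, geom_sum_eq hbl.ne']
    have e2 : ((l * b) ^ (n + 1) - 1) / (l * b - 1) * s ≤ (l * b) ^ (n + 1) / (l * b - 1) * s := by
      gcongr; linarith
    refine e2.trans ?_
    have e3 : (l * b) ^ (n + 1) / (l * b - 1) * s = l ^ n * (l * b / (l * b - 1)) * (b ^ n * s) := by
      rw [mul_pow, pow_succ, pow_succ]; field_simp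
    rw [e3]
    have e4 : l ^ n * (l * b / (l * b - 1)) * (b ^ n * s) ≤
        l ^ n * (l * b / (l * b - 1)) * (1 / 2) := by gcongr
    refine e4.trans (le_of_eq ?_)
    field_simp
  have hB : ∑' k, ee b α n s (k + (n + 1)) = l ^ n * (l / (1 - l)) := by
    have e1 : ∀ k, ee b α n s (k + (n + 1)) = l ^ (n + 1) * l ^ k := by
      intro k
      unfold ee
      rw [if_neg (by omega), mul_one, pow_add, mul_comm]
    rw [tsum_congr e1, tsum_mul_left, tsum_geometric_of_lt_one hl.le hl1, pow_succ]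
    field_simp
  rw [hB]
  unfold C0
  rw [← hldef, mul_add]
  linarith

/-- The Hölder upper bound for small shifts. -/
theorem upper (hb : 2 ≤ b) (h0 : 0 < α) (h1 : α < 1) {M L : ℝ} (hM : ∀ x, |g x| ≤ M)
    (hL : ∀ x y, |g x - g y| ≤ L * |x - y|) {n : ℕ} {s : ℝ} (hs : 0 ≤ s)
    (hn : (b : ℝ) ^ n * s ≤ 1 / 2) (y : ℝ) :
    |W b α g (y + s) - W b α g y| ≤ max L (2 * M) * (((b : ℝ) ^ (-α)) ^ n * C0 b α) := by
  have hl := lam_pos (α := α) hb
  have hM0 : 0 ≤ M := (abs_nonneg _).trans (hM 0)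
  rw [W_sub hb h0 hM, ← Real.norm_eq_abs]
  have hterm : ∀ k : ℕ, ‖((b : ℝ) ^ (-α)) ^ k *
      (g ((b : ℝ) ^ k * y + (b : ℝ) ^ k * s) - g ((b : ℝ) ^ k * y))‖ ≤
      max L (2 * M) * ee b α n s k := by
    intro k
    rw [norm_mul, Real.norm_of_nonneg (by positivity), Real.norm_eq_abs]
    unfold ee
    rw [mul_left_comm]
    refine mul_le_mul_of_nonneg_left ?_ (by positivity)
    split_ifs with h
    · refine (hL _ _).trans ?_
      rw [add_sub_cancel_left, abs_of_nonneg (by positivity)]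
      exact mul_le_mul_of_nonneg_right (le_max_left _ _) (by positivity)
    · rw [mul_one]
      refine le_trans ?_ (le_max_right _ _)
      have a1 := hM ((b : ℝ) ^ k * y + (b : ℝ) ^ k * s)
      have a2 := hM ((b : ℝ) ^ k * y)
      have := abs_sub (g ((b : ℝ) ^ k * y + (b : ℝ) ^ k * s)) (g ((b : ℝ) ^ k * y))
      linarith
  have hsum := (summable_ee hb h0 hs hn).mul_left (max L (2 * M))
  refine (tsum_of_norm_bounded hsum.hasSum hterm).trans ?_
  rw [tsum_mul_left]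
  refine mul_le_mul_of_nonneg_left (tsum_ee_le hb h0 h1 hs hn) ?_
  exact le_trans (by positivity) (le_max_right _ _)

/-- The lower bound from a cell function. -/
theorem lower (hb : 2 ≤ b) (h0 : 0 < α) (h1 : α < 1) {M ℓ : ℝ} (hℓ : 0 ≤ ℓ)
    (hM : ∀ x, |g x| ≤ M)
    (hP1 : ∀ u v, u ≤ v → -(ℓ * (v - u)) ≤ g v - g u) (hP2 : ∀ u v, u ≤ v → -ℓ ≤ g v - g u)
    {n J : ℕ} (hJ : J ≤ n) {s : ℝ} (hs : 0 ≤ s) (hn : (b : ℝ) ^ n * s ≤ 1 / 2) (y : ℝ)
    (hP3 : ℓ - ℓ * ((b : ℝ) ^ (n - J) * s) ≤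
      g ((b : ℝ) ^ (n - J) * y + (b : ℝ) ^ (n - J) * s) - g ((b : ℝ) ^ (n - J) * y)) :
    ℓ * (((b : ℝ) ^ (-α)) ^ (n - J) - ((b : ℝ) ^ (-α)) ^ n * C0 b α) ≤
      W b α g (y + s) - W b α g y := by
  have hl := lam_pos (α := α) hb
  rw [W_sub hb h0 hM]
  have hterm : ∀ k : ℕ, -(ℓ * ee b α n s k) + (if k = n - J then ℓ * ((b : ℝ) ^ (-α)) ^ (n - J)
      else 0) ≤ ((b : ℝ) ^ (-α)) ^ k *
      (g ((b : ℝ) ^ k * y + (b : ℝ) ^ k * s) - g ((b : ℝ) ^ k * y)) := by
    intro k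
    have hks : (b : ℝ) ^ k * y ≤ (b : ℝ) ^ k * y + (b : ℝ) ^ k * s := by
      have : 0 ≤ (b : ℝ) ^ k * s := by positivity
      linarith
    split_ifs with h
    · subst h
      have e : ee b α n s (n - J) = ((b : ℝ) ^ (-α)) ^ (n - J) * ((b : ℝ) ^ (n - J) * s) := by
        unfold ee; rw [if_pos (by omega)]
      rw [e]
      have := mul_le_mul_of_nonneg_left hP3 (by positivity : 0 ≤ ((b : ℝ) ^ (-α)) ^ (n - J))
      linarith
    · rw [add_zero]
      unfold ee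
      split_ifs with h'
      · have := mul_le_mul_of_nonneg_left (hP1 _ _ hks) (by positivity : 0 ≤ ((b : ℝ) ^ (-α)) ^ k)
        rw [add_sub_cancel_left] at this
        linarith
      · have := mul_le_mul_of_nonneg_left (hP2 _ _ hks) (by positivity : 0 ≤ ((b : ℝ) ^ (-α)) ^ k)
        linarith
  have hsum1 : Summable fun k => -(ℓ * ee b α n s k) :=
    ((summable_ee hb h0 hs hn).mul_left ℓ).neg
  have hsum2 : HasSum (fun k => if k = n - J then ℓ * ((b : ℝ) ^ (-α)) ^ (n - J) else 0)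
      (ℓ * ((b : ℝ) ^ (-α)) ^ (n - J)) := hasSum_ite_eq _ _
  have hsum3 : Summable fun k : ℕ => ((b : ℝ) ^ (-α)) ^ k *
      (g ((b : ℝ) ^ k * y + (b : ℝ) ^ k * s) - g ((b : ℝ) ^ k * y)) := by
    refine ((summable_W hb h0 hM (y + s)).sub (summable_W hb h0 hM y)).congr fun k => ?_
    rw [mul_add]; ring
  have hle := (hsum1.add hsum2.summable).tsum_le_tsum hterm hsum3
  rw [hsum1.tsum_add hsum2.summable, hsum2.tsum_eq, tsum_neg, tsum_mul_left] at hle
  have := mul_le_mul_of_nonneg_left (tsum_ee_le hb h0 h1 hs hn) hℓ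
  linarith

end

/-! ### The cell functions -/

/-- The staircase: slope one on `[j/M, (j+1)/M]` for `j ≡ i mod M`, constant elsewhere. -/
noncomputable def stair (M i : ℕ) (x : ℝ) : ℝ :=
  (1 / (M : ℝ)) * ⌊x - i / M⌋ + min (Int.fract (x - i / M)) (1 / M)

theorem stair_mono_lip {M : ℕ} (hM : 1 ≤ M) (i : ℕ) {u v : ℝ} (huv : u ≤ v) :
    0 ≤ stair M i v - stair M i u ∧ stair M i v - stair M i u ≤ v - u := by
  unfold stair
  set ℓ : ℝ := 1 / (M : ℝ) with hℓ
  have hM' : (1 : ℝ) ≤ M := by exact_mod_cast hM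
  have hℓ0 : 0 < ℓ := by positivity
  have hℓ1 : ℓ ≤ 1 := by rw [hℓ, div_le_one (by linarith)]; exact hM'
  set p := u - (i : ℝ) / M with hp
  set q := v - (i : ℝ) / M with hq
  have hpq : p ≤ q := by rw [hp, hq]; linarith
  have e : v - u = q - p := by rw [hp, hq]; ring
  rw [e]
  have hfl : ⌊p⌋ ≤ ⌊q⌋ := Int.floor_le_floor hpq
  have ep := Int.floor_add_fract p
  have eq' := Int.floor_add_fract q
  have fp0 := Int.fract_nonneg p
  have fp1 := Int.fract_lt_one p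
  have fq0 := Int.fract_nonneg q
  have fq1 := Int.fract_lt_one q
  rcases hfl.eq_or_lt with h | h
  · rw [← h]
    have h2 : Int.fract p ≤ Int.fract q := by
      have : ((⌊p⌋ : ℤ) : ℝ) = ((⌊q⌋ : ℤ) : ℝ) := by rw [h]
      linarith
    have h3 : q - p = Int.fract q - Int.fract p := by
      have : ((⌊p⌋ : ℤ) : ℝ) = ((⌊q⌋ : ℤ) : ℝ) := by rw [h]
      linarith
    rw [h3]
    constructor
    · have := min_le_min_right ℓ h2
      linarith
    · rcases le_total (Int.fract p) ℓ with h4 | h4 <;> rcases le_total (Int.fract q) ℓ with h5 | h5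
      · rw [min_eq_left h4, min_eq_left h5]; linarith
      · rw [min_eq_left h4, min_eq_right h5]; linarith
      · rw [min_eq_right h4, min_eq_left h5]; linarith
      · rw [min_eq_right h4, min_eq_right h5]; linarith
  · have h' : ((⌊p⌋ : ℤ) : ℝ) + 1 ≤ ((⌊q⌋ : ℤ) : ℝ) := by exact_mod_cast h
    have m1 : min (Int.fract p) ℓ ≤ ℓ := min_le_right _ _
    have m2 : 0 ≤ min (Int.fract q) ℓ := le_min fq0 hℓ0.le
    have m3 : min (Int.fract q) ℓ ≤ Int.fract q := min_le_left _ _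
    have m4 : ℓ - min (Int.fract p) ℓ ≤ 1 - Int.fract p := by
      rcases le_total (Int.fract p) ℓ with h4 | h4
      · rw [min_eq_left h4]; linarith
      · rw [min_eq_right h4]; linarith
    constructor
    · nlinarith
    · have h6 : q - p = ((⌊q⌋ : ℤ) : ℝ) - ((⌊p⌋ : ℤ) : ℝ) + Int.fract q - Int.fract p := by linarith
      rw [h6]
      nlinarith [mul_nonneg (sub_nonneg.2 hℓ1)
        (by linarith : (0 : ℝ) ≤ ((⌊q⌋ : ℤ) : ℝ) - ((⌊p⌋ : ℤ) : ℝ) - 1)]

theorem stair_add_one {M i : ℕ} (x : ℝ) : stair M i (x + 1) = stair M i x + 1 / M := by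
  unfold stair
  have : x + 1 - (i : ℝ) / M = (x - i / M) + 1 := by ring
  rw [this, Int.floor_add_one, Int.fract_add_one]
  push_cast; ring

theorem stair_add_int {M i : ℕ} (x : ℝ) (n : ℤ) :
    stair M i (x + n) = stair M i x + n * (1 / M) := by
  unfold stair
  have : x + n - (i : ℝ) / M = (x - i / M) + n := by ring
  rw [this, Int.floor_add_intCast, Int.fract_add_intCast]
  push_cast; ring

theorem stair_cell {M i : ℕ} (hM : 2 ≤ M) {j : ℤ} (hj : j % M = i) :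
    stair M i ((j + 1) / M) - stair M i (j / M) = 1 / M := by
  have hM0 : (0 : ℝ) < M := by positivity
  obtain ⟨q, hq⟩ : ∃ q : ℤ, j = i + M * q := ⟨j / M, by
    have := Int.emod_add_mul_ediv j M
    rw [hj] at this; exact this.symm⟩
  have e1 : ((j : ℝ)) / M - i / M = q := by
    rw [hq]; push_cast; field_simp; ring
  have e2 : ((j : ℝ) + 1) / M - i / M = 1 / M + q := by
    rw [hq]; push_cast; field_simp; ring
  unfold stair
  have h1 : (1 : ℝ) / M < 1 := by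
    rw [div_lt_one hM0]; exact_mod_cast (by omega : 1 < M)
  have h2 : (0 : ℝ) ≤ 1 / M := by positivity
  rw [e1, e2, Int.floor_add_intCast, Int.fract_add_intCast, Int.fract_intCast, Int.floor_intCast]
  have h3 : ⌊(1 : ℝ) / M⌋ = 0 := by
    rw [Int.floor_eq_iff]; push_cast; constructor <;> linarith
  have h4 : Int.fract ((1 : ℝ) / M) = 1 / M := by
    rw [Int.fract_eq_iff]; exact ⟨h2, h1, 0, by simp⟩
  rw [h3, h4, min_self, min_eq_left h2]
  push_cast; ring

/-- The cell function: periodic, slope `1 - ℓ` on the cells `≡ i`, slope `-ℓ` elsewhere. -/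
noncomputable def cell (M i : ℕ) (x : ℝ) : ℝ := stair M i x - (1 / (M : ℝ)) * x

theorem cell_periodic (M i : ℕ) : Function.Periodic (cell M i) 1 := by
  intro x
  unfold cell
  rw [stair_add_one]; ring

theorem cell_P1 {M : ℕ} (hM : 1 ≤ M) (i : ℕ) (u v : ℝ) (h : u ≤ v) :
    -(1 / (M : ℝ) * (v - u)) ≤ cell M i v - cell M i u := by
  have := (stair_mono_lip hM i h).1
  unfold cell; linarith

theorem cell_P2 {M : ℕ} (hM : 1 ≤ M) (i : ℕ) (u v : ℝ) (h : u ≤ v) :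
    -(1 / (M : ℝ)) ≤ cell M i v - cell M i u := by
  have hM' : (0 : ℝ) < M := by exact_mod_cast hM
  have h1 : u + (⌊v - u⌋ : ℤ) ≤ v := by have := Int.floor_le (v - u); linarith
  have h2 := (stair_mono_lip hM i h1).1
  rw [stair_add_int] at h2
  have h3 := Int.lt_floor_add_one (v - u)
  have h4 : (0 : ℝ) < 1 / M := by positivity
  unfold cell
  nlinarith

theorem cell_lip {M : ℕ} (hM : 1 ≤ M) (i : ℕ) (u v : ℝ) :
    |cell M i u - cell M i v| ≤ 1 * |u - v| := by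
  have hM' : (1 : ℝ) ≤ M := by exact_mod_cast hM
  have h4 : (0 : ℝ) < 1 / M := by positivity
  have h5 : (1 : ℝ) / M ≤ 1 := by rw [div_le_one (by linarith)]; exact hM'
  have key : ∀ u v : ℝ, u ≤ v → |cell M i v - cell M i u| ≤ v - u := by
    intro u v h
    have h1 := stair_mono_lip hM i h
    rw [abs_le]
    unfold cell
    constructor
    · nlinarith
    · nlinarith
  rw [one_mul]
  rcases le_total u v with h | h
  · rw [abs_sub_comm, abs_sub_comm u v, abs_of_nonneg (by linarith : (0 : ℝ) ≤ v - u)]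
    exact key u v h
  · rw [abs_of_nonneg (by linarith : (0 : ℝ) ≤ u - v)]
    exact key v u h

theorem cell_P3 {M : ℕ} (hM : 2 ≤ M) {u v : ℝ} (h : 2 / M ≤ v - u) :
    ∃ i : Fin M, 1 / (M : ℝ) - 1 / M * (v - u) ≤ cell M i v - cell M i u := by
  have hM0 : (0 : ℝ) < M := by positivity
  set j : ℤ := ⌈u * M⌉ with hj
  have hj1 : u * M ≤ j := Int.le_ceil _
  have hj2 : (j : ℝ) < u * M + 1 := Int.ceil_lt_add_one _
  have hmod0 : 0 ≤ j % M := Int.emod_nonneg _ (by omega)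
  have hmod1 : j % M < M := Int.emod_lt_of_pos _ (by omega)
  refine ⟨⟨(j % M).toNat, by omega⟩, ?_⟩
  have hcell := stair_cell (i := (j % M).toNat) hM (j := j) (by omega)
  have hu : u ≤ j / M := by rw [le_div_iff₀ hM0]; exact hj1
  have hv : ((j : ℝ) + 1) / M ≤ v := by
    rw [div_le_iff₀ hM0]
    rw [div_le_iff₀ hM0] at h
    nlinarith
  have h1 := (stair_mono_lip (by omega : 1 ≤ M) (j % M).toNat hu).1
  have h2 := (stair_mono_lip (by omega : 1 ≤ M) (j % M).toNat hv).1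
  show 1 / (M : ℝ) - 1 / M * (v - u) ≤ cell M (j % M).toNat v - cell M (j % M).toNat u
  unfold cell
  linarith

theorem periodic_bound {g : ℝ → ℝ} (hg : Function.Periodic g 1) {L : ℝ}
    (hL : ∀ x y, |g x - g y| ≤ L * |x - y|) (x : ℝ) : |g x| ≤ |g 0| + |L| := by
  have h1 : g x = g (Int.fract x) := by
    have := hg.int_mul ⌊x⌋ (Int.fract x)
    rw [mul_one, add_comm (Int.fract x), Int.floor_add_fract] at this
    exact this
  rw [h1]
  have h2 := hL (Int.fract x) 0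
  rw [sub_zero, abs_of_nonneg (Int.fract_nonneg x)] at h2
  have h3 := Int.fract_lt_one x
  have h4 := Int.fract_nonneg x
  have h5 : L * Int.fract x ≤ |L| := by
    have := le_abs_self L
    have := abs_nonneg L
    nlinarith
  have h6 := abs_sub_abs_le_abs_sub (g (Int.fract x)) (g 0)
  linarith

end Pool.Agent.X189.WE
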